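import Pool.Agent.W186.AI.Spec

set_option autoImplicit false

namespace Pool.Agent.W141.AI.ENU

open Complex Filter Topology Metric Set
open scoped Real
open Pool.Agent.W186.AI

lemma im_deriv (h : ℂ → ℂ) (h' c : ℂ) (t : ℝ) (H : HasDerivAt h h' (c + I * (t : ℂ))) :
    HasDerivAt (fun u : ℝ => (h (c + I * (u : ℂ))).im) h'.re t := by
  have h1 : HasDerivAt (fun u : ℂ => c + I * u) I (t : ℂ) := by
    simpa using ((hasDerivAt_id (t : ℂ)).const_mul I).const_add c
  have h2 : HasDerivAt (fun u : ℂ => h (c + I * u)) (h' * I) (t : ℂ) :=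
    HasDerivAt.comp (h₂ := h) (t : ℂ) H h1
  have h3 : HasDerivAt (fun u : ℝ => h (c + I * (u : ℂ))) (h' * I) t := h2.comp_ofReal
  have h4 := (Complex.imCLM.hasFDerivAt (x := h (c + I * (t : ℂ)))).comp_hasDerivAt t h3
  have h5 : Complex.imCLM (h' * I) = h'.re := by simp
  rw [h5] at h4
  exact h4

lemma re_s {a : ℝ} (ha : 1 / 2 < a) (t : ℝ) : 1 < (1 / 2 + (a : ℂ) + I * (t : ℂ)).re := by
  have : (1 / 2 + (a : ℂ) + I * (t : ℂ)).re = 1 / 2 + a := by simp
  rw [this]; linarith

lemma im_s (a : ℝ) (t : ℝ) : (1 / 2 + (a : ℂ) + I * (t : ℂ)).im = t := by simp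

lemma conj_s (a : ℝ) (t : ℝ) : 1 / 2 + (a : ℂ) - I * (t : ℂ) =
    (starRingEnd ℂ) (1 / 2 + (a : ℂ) + I * (t : ℂ)) := by
  apply Complex.ext <;> simp

lemma hopen : IsOpen {s : ℂ | 1 < s.re} := isOpen_lt continuous_const continuous_re

lemma isder (h : ℂ → ℂ) (H : DifferentiableOn ℂ h {s : ℂ | 1 < s.re}) {s : ℂ} (hs : 1 < s.re) :
    HasDerivAt h (deriv h s) s :=
  (H.differentiableAt (hopen.mem_nhds hs)).hasDerivAt

lemma dell (hg : S_GAM) (hz : S_ZET) : DifferentiableOn ℂ ell {s : ℂ | 1 < s.re} :=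
  hg.1.add hz.1

lemma GGim (hg : S_GAM) (hz : S_ZET) {a : ℝ} (ha : 1 / 2 < a) (t : ℝ) :
    GG (a : ℂ) (t : ℂ) = (((ell (1 / 2 + (a : ℂ) + I * (t : ℂ))).im : ℝ) : ℂ) := by
  have h1 : ell (1 / 2 + (a : ℂ) - I * (t : ℂ)) =
      (starRingEnd ℂ) (ell (1 / 2 + (a : ℂ) + I * (t : ℂ))) := by
    rw [conj_s]
    unfold ell
    rw [hg.2.2 _ (re_s ha t), hz.2.2.1 _ (re_s ha t), map_add]
  unfold GG
  rw [h1, Complex.sub_conj]
  push_cast
  rw [div_eq_iff (by simp : (2 : ℂ) * I ≠ 0)]
  ring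

lemma Xeq (hg : S_GAM) (hz : S_ZET) {a : ℝ} (ha : 1 / 2 < a) (t : ℝ) :
    X a t = Real.exp (ell (1 / 2 + (a : ℂ) + I * (t : ℂ))).re *
      Real.cos (ell (1 / 2 + (a : ℂ) + I * (t : ℂ))).im := by
  set s : ℂ := 1 / 2 + (a : ℂ) + I * (t : ℂ) with hs
  have hre : 1 < s.re := re_s ha t
  have hs0 : s ≠ 0 := by
    intro h; rw [h] at hre; simp at hre; linarith
  have h1 : completedRiemannZeta s = Gammaℝ s * riemannZeta s := by
    rw [riemannZeta_def_of_ne_zero hs0, mul_div_cancel₀]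
    exact Gammaℝ_ne_zero_of_re_pos (by linarith)
  have h2 : s * (s - 1) * completedRiemannZeta s = cexp (ell s) := by
    unfold ell
    rw [Complex.exp_add, hg.2.1 s hre, hz.2.1 s hre, h1]; ring
  unfold X
  rw [← hs, h2, Complex.exp_re]

theorem main (hg : S_GAM) (h1 : S_GD1) (hz : S_ZET) (hm : S_MON) : S_ENU := by
  obtain ⟨C, hC⟩ := h1
  -- the function
  let f : ℝ → ℝ → ℝ := fun a t => (ell (1 / 2 + (a : ℂ) + I * (t : ℂ))).im
  have hder : ∀ a : ℝ, 1 / 2 < a → ∀ t : ℝ,
      HasDerivAt (f a) (deriv ell (1 / 2 + (a : ℂ) + I * (t : ℂ))).re t := fun a ha t =>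
    im_deriv ell _ _ t (isder ell (dell hg hz) (re_s ha t))
  have hmono : ∀ a : ℝ, 1 / 2 < a → StrictMono (f a) := fun a ha =>
    strictMono_of_hasDerivAt_pos (hder a ha) (fun t => hm _ (re_s ha t))
  have hcont : ∀ a : ℝ, 1 / 2 < a → Continuous (f a) := fun a ha =>
    continuous_iff_continuousAt.2 fun t => (hder a ha t).continuousAt
  have hzero : ∀ a : ℝ, 1 / 2 < a → f a 0 = 0 := by
    intro a ha
    have h2 := GGim hg hz ha 0
    have h3 : GG (a : ℂ) ((0 : ℝ) : ℂ) = 0 := by simp [GG]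
    rw [h3] at h2
    exact_mod_cast h2.symm
  have htop : ∀ a : ℝ, 1 / 2 < a → Tendsto (f a) atTop atTop := by
    intro a ha
    obtain ⟨D, hD⟩ := hz.2.2.2 (1 / 2 + a) (by linarith)
    set T : ℝ := max 1 (Real.exp (2 * C + 2)) with hT
    let k : ℝ → ℝ := fun t => (g (1 / 2 + (a : ℂ) + I * (t : ℂ))).im
    have hk : ∀ t : ℝ, HasDerivAt k (deriv g (1 / 2 + (a : ℂ) + I * (t : ℂ))).re t := fun t =>
      im_deriv g _ _ t (isder g hg.1 (re_s ha t))
    have hk1 : ∀ t : ℝ, T ≤ t → 1 ≤ (deriv g (1 / 2 + (a : ℂ) + I * (t : ℂ))).re := by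
      intro t ht
      have ht1 : 1 ≤ t := (le_max_left _ _).trans ht
      have ht2 : Real.exp (2 * C + 2) ≤ t := (le_max_right _ _).trans ht
      set s : ℂ := 1 / 2 + (a : ℂ) + I * (t : ℂ) with hs
      have him : s.im = t := im_s a t
      have h2 := hC s (re_s ha t) (Or.inr (by rw [him, abs_of_nonneg (by linarith)]; exact ht1))
      have h3 : |(deriv g s - log s / 2).re| ≤ C := (Complex.abs_re_le_norm _).trans h2
      have h4 : (deriv g s - log s / 2).re = (deriv g s).re - Real.log ‖s‖ / 2 := by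
        have : (log s / 2).re = Real.log ‖s‖ / 2 := by
          have h5 : log s / 2 = ((1 / 2 : ℝ) : ℂ) * log s := by push_cast; ring
          rw [h5, Complex.re_ofReal_mul, Complex.log_re]; ring
        rw [Complex.sub_re, this]
      rw [h4] at h3
      have h5 : t ≤ ‖s‖ := by
        have := Complex.abs_im_le_norm s
        rw [him, abs_of_nonneg (by linarith)] at this
        exact this
      have h6 : 2 * C + 2 ≤ Real.log ‖s‖ := by
        rw [Real.le_log_iff_exp_le (by linarith)]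
        linarith
      have := (abs_le.1 h3).1
      linarith
    have hk2 : MonotoneOn (fun t => k t - t) (Ici T) := by
      apply monotoneOn_of_hasDerivWithinAt_nonneg (convex_Ici T)
        (f' := fun t => (deriv g (1 / 2 + (a : ℂ) + I * (t : ℂ))).re - 1)
      · exact fun t _ => ((hk t).sub (hasDerivAt_id t)).continuousAt.continuousWithinAt
      · exact fun t _ => ((hk t).sub (hasDerivAt_id t)).hasDerivWithinAt
      · intro t ht
        have ht' : T ≤ t := interior_subset ht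
        have := hk1 t ht'
        linarith
    have hlow : ∀ t : ℝ, T ≤ t → t + (k T - T - D) ≤ f a t := by
      intro t ht
      have h2 := hk2 (mem_Ici.2 le_rfl) (mem_Ici.2 ht) ht
      simp only at h2
      have h3 : |(Z (1 / 2 + (a : ℂ) + I * (t : ℂ))).im| ≤ D :=
        (Complex.abs_im_le_norm _).trans (hD _ (by simp))
      have h4 : f a t = k t + (Z (1 / 2 + (a : ℂ) + I * (t : ℂ))).im := by
        simp only [f, k, ell, Complex.add_im]
      have := (abs_le.1 h3).1
      rw [h4]; linarith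
    apply tendsto_atTop_mono' atTop (f₁ := fun t => t + (k T - T - D))
    · filter_upwards [eventually_ge_atTop T] with t ht using hlow t ht
    · exact tendsto_atTop_add_const_right _ _ tendsto_id
  -- existence of the zeros
  have hy : ∀ n : ℕ, 0 < yy n := fun n => by unfold yy; positivity
  have hex : ∀ (n : ℕ) (a : ℝ), 1 / 2 < a → ∃ t : ℝ, 0 < t ∧ f a t = yy n := by
    intro n a ha
    obtain ⟨b, hb, hb0⟩ := (((htop a ha).eventually_ge_atTop (yy n)).and
      (eventually_ge_atTop (0 : ℝ))).exists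
    obtain ⟨t, ht, hft⟩ := intermediate_value_Icc hb0 (hcont a ha).continuousOn
      (show yy n ∈ Icc (f a 0) (f a b) from ⟨by rw [hzero a ha]; exact (hy n).le, hb⟩)
    refine ⟨t, ?_, hft⟩
    rcases lt_or_eq_of_le ht.1 with h | h
    · exact h
    · rw [← h, hzero a ha] at hft
      exact absurd hft (hy n).ne
  choose! τ hτ using hex
  have hcos : ∀ (a t : ℝ), 1 / 2 < a → (X a t = 0 ↔ Real.cos (f a t) = 0) := by
    intro a t ha
    rw [Xeq hg hz ha t, mul_eq_zero]
    simp only [(Real.exp_pos _).ne', false_or]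
    rfl
  refine ⟨τ, ?_, ?_, ?_, ?_⟩
  · intro n a ha
    refine ⟨(hτ n a ha).1, ?_⟩
    rw [GGim hg hz ha]
    congr 1
    exact (hτ n a ha).2
  · intro n a t ha _ h
    rw [GGim hg hz ha] at h
    have h2 : f a t = yy n := by exact_mod_cast h
    exact (hmono a ha).injective (h2.trans (hτ n a ha).2.symm)
  · intro a t ha ht h
    rw [hcos a t ha, Real.cos_eq_zero_iff] at h
    obtain ⟨k, hk⟩ := h
    have hpos : 0 < f a t := by
      rw [← hzero a ha]; exact hmono a ha ht
    have hk0 : 0 ≤ k := by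
      by_contra hc
      push Not at hc
      have h3 : (k : ℝ) ≤ -1 := by exact_mod_cast (by omega : k ≤ -1)
      rw [hk] at hpos
      have := Real.pi_pos
      nlinarith
    obtain ⟨n, rfl⟩ := Int.eq_ofNat_of_zero_le hk0
    refine ⟨n, (hmono a ha).injective ?_⟩
    rw [(hτ n a ha).2, hk]
    unfold yy
    push_cast
    ring
  · intro n a ha
    rw [hcos a _ ha, (hτ n a ha).2, Real.cos_eq_zero_iff]
    refine ⟨n, ?_⟩
    unfold yy
    push_cast
    ring

end Pool.Agent.W141.AI.ENU
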